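import Pool.Agent.helper51.VF.SpecA

/-! # Project vf (MP_74cfa5_ag), row vf:UNQ -/

set_option autoImplicit false

namespace Pool.Agent.VF

open Pool.Agent.PC Pool.Agent.QS

universe u

theorem UNQ (hEXP : EXP_stmt.{u}) (hDEX : DEX_stmt.{u}) : UNQ_stmt.{u} := by
  intro k F K _ _ _ _ _ _ _ p _ _ hfr hpp n D y hn hΩ hDy δ T T' hT hT' l0 d f hl0
  set M : Matrix (Fin n) (Fin n) K := Matrix.of fun i l => D l (algebraMap F K (f i)) with hM
  have hdet : M.det = 0 := by
    refine Matrix.exists_mulVec_eq_zero_iff.1 ⟨fun l => δ (y l), fun h => hl0 (congrFun h l0), ?_⟩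
    funext i
    have e1 := hEXP k K n D y hn hΩ hDy (δ.restrictScalars k) (algebraMap F K (f i))
    have e2 : (δ.restrictScalars k) (algebraMap F K (f i)) = 0 := δ.map_algebraMap (f i)
    rw [e2] at e1
    show ∑ l, M i l * δ (y l) = 0
    rw [e1]
    refine Finset.sum_congr rfl fun l _ => ?_
    exact mul_comm _ _
  obtain ⟨E', hE'⟩ := hDEX k F K p hfr hpp (T - T') fun c g hg => by
    rw [Derivation.sub_apply, hT c g hg, hT' c g hg, sub_self]
  have hupd : ∀ S : Derivation k F K,
      (Matrix.of fun i l => if l = l0 then S (f i) else D l (algebraMap F K (f i))) =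
        M.updateCol l0 fun i => S (f i) := by
    intro S
    ext i l
    rw [Matrix.updateCol_apply]
    rfl
  have hJ : ∀ S : Derivation k F K, JF S D l0 d f = d⁻¹ * M.cramer (fun i => S (f i)) l0 := by
    intro S
    unfold JF
    rw [hupd, Matrix.cramer_apply]
  have hv : (fun i => T (f i)) = (fun i => T' (f i)) + M.mulVec fun l => E' (y l) := by
    funext i
    have e1 := hEXP k K n D y hn hΩ hDy E' (algebraMap F K (f i))
    rw [hE', Derivation.sub_apply, sub_eq_iff_eq_add'] at e1
    rw [e1, Pi.add_apply]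
    congr 1
    refine Finset.sum_congr rfl fun l _ => ?_
    exact mul_comm _ _
  rw [hJ, hJ, hv, map_add, Matrix.cramer_eq_adjugate_mulVec M (M.mulVec _), Matrix.mulVec_mulVec,
    Matrix.adjugate_mul, hdet, zero_smul, Matrix.zero_mulVec, add_zero]

end Pool.Agent.VF
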